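import Pool.Agent.Helper45.LN.All2
import Pool.Agent.Helper45.LN.Conv

/-!
# The section conjecture for almost all cyclic twists of a curve

Let `k` be a number field, `n ≥ 2`, `K₀` the function field of a curve `Y` over `k`, `h ∈ K₀`, and
`X` the curve `yⁿ = h`, geometrically irreducible of degree `n` over `Y` and of genus at least one.
(Roots of unity need not be in `k`.)  Its twists are the curves `yⁿ = c h`, `c ∈ k*/k*ⁿ`, ordered by
the norm of the product of the primes `v` of `k` with `v(c)` not divisible by `n`.  A point `P` of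
`Y` is totally ramified if `v_P(h)` is prime to `n`.

* Local theorem: for almost all primes `v`, if `v(c)` is not divisible by `n` and `yⁿ = c h`, or a
  curve over `k` which maps onto it, has a Galois section then a Frobenius element at `v` fixes a
  point `P` of `Y` such that `gcd(n, v_P(h))` divides `v(c)`.
* If some element of the Galois group of `k` fixes no totally ramified point then for 100 percent of
  the `c` the twist `yⁿ = c h`, and every curve over `k` which maps onto it, has no Galois section.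
  The proportion of the exceptions with norm at most `X` is at most `C / (log X) ^ η`.
* If some rational point of `Y` is totally ramified in `X` then all twists have a section.
-/

set_option autoImplicit false

namespace Pool.Agent.Results.MP_e66f84_ag.CyclicTwists

open NumberField IsDedekindDomain VC Pool.Agent.Helper91.Sect

/-- `v(c)` is not divisible by `n`: the value of `c` is not the `n`-th power of the value of an
element. -/
def IsRam {k : Type} [Field k] [NumberField k] (n : ℕ) (v : HeightOneSpectrum (𝓞 k)) (c : k) :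
    Prop :=
  ∀ d : k, v.valuation k c ≠ v.valuation k d ^ n

open scoped Classical in
/-- The norm of the product of the primes `v` of `k` with `v(c)` not divisible by `n`. -/
noncomputable def cond {k : Type} [Field k] [NumberField k] (n : ℕ) (c : k) : ℕ :=
  ∏ᶠ v : HeightOneSpectrum (𝓞 k), if IsRam n v c then Ideal.absNorm v.asIdeal else 1

/-- The group `k*/k*ⁿ`. -/
abbrev Cls (k : Type) [Field k] (n : ℕ) : Type := kˣ ⧸ (powMonoidHom n : kˣ →* kˣ).range

/-- The classes `c ∈ k*/k*ⁿ` with `cond c ≤ X`. -/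
def twists (k : Type) [Field k] [NumberField k] (n X : ℕ) : Set (Cls k n) :=
  {C | ∃ c : kˣ, (c : Cls k n) = C ∧ cond n (c : k) ≤ X}

/-- The elements of `K₀` and the elements algebraic over `k`, in the algebraic closure of `K₀`: they
generate the function field of `Y` over the algebraic closure of `k`. -/
def base (k K₀ : Type) [Field k] [Field K₀] [Algebra k K₀] : Set (AlgebraicClosure K₀) :=
  {z | IsAlgebraic k z} ∪ Set.range (algebraMap K₀ (AlgebraicClosure K₀))

/-- `K₀/k` is a function field of one variable, and over the algebraic closure of `k` the curve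
`yⁿ = h` is irreducible (no power `yⁱ`, `0 < i < n`, is in the function field of `Y`) and not
rational. -/
structure IsCyclicCover (k : Type) {K₀ : Type} [Field k] [Field K₀] [Algebra k K₀] (n : ℕ)
    (h : K₀) : Prop where
  ff : IsFunctionField k K₀
  irr : ∀ r : AlgebraicClosure K₀, r ^ n = algebraMap K₀ (AlgebraicClosure K₀) h →
    ∀ i : ℕ, 0 < i → i < n → r ^ i ∉ Subfield.closure (base k K₀)
  nonrat : ∀ r : AlgebraicClosure K₀, r ^ n = algebraMap K₀ (AlgebraicClosure K₀) h →
    ∀ y : AlgebraicClosure K₀,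
      Subfield.closure (base k K₀ ∪ {r}) ≠ Subfield.closure ({z | IsAlgebraic k z} ∪ {y})

/-- `P` is a point of `Y`: a valuation ring of `K₀` containing `k`. -/
def IsPoint (k : Type) {K₀ : Type} [Field k] [Field K₀] [Algebra k K₀] (P : ValuationSubring K₀) :
    Prop :=
  ∀ a : k, algebraMap k K₀ a ∈ P

/-- `P` is a totally ramified point of `yⁿ = h`: the value of `h` at `P` is prime to `n`. -/
structure IsTotallyRamified (k : Type) {K₀ : Type} [Field k] [Field K₀] [Algebra k K₀] (n : ℕ)
    (h : K₀) (P : ValuationSubring K₀) : Prop where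
  point : IsPoint k P
  ram : ∀ d : ℕ, d ∣ n → 1 < d → ∀ z : K₀, P.valuation h ≠ P.valuation z ^ d

/-- The residue field of `P` is `k`. -/
def IsRational (k : Type) {K₀ : Type} [Field k] [Field K₀] [Algebra k K₀]
    (P : ValuationSubring K₀) : Prop :=
  ∀ x ∈ P, ∃ a : k, P.valuation (x - algebraMap k K₀ a) < 1

/-- `σ` fixes a point over `P`: it is trivial on the image of the residue field of `P` under an
embedding over `k`. -/
def Fixes {k K₀ : Type} [Field k] [Field K₀] [Algebra k K₀]
    (σ : AlgebraicClosure k ≃ₐ[k] AlgebraicClosure k) (P : ValuationSubring K₀) : Prop :=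
  ∃ φ : P →+* AlgebraicClosure k,
    (∀ (a : k) (x : P), (x : K₀) = algebraMap k K₀ a → φ x = algebraMap k (AlgebraicClosure k) a) ∧
    ∀ x : P, σ (φ x) = φ x

/-- `F` is a Frobenius element at the valuation ring `O` over the prime `v`. -/
structure IsFrobenius {k : Type} [Field k] [NumberField k] (v : HeightOneSpectrum (𝓞 k))
    (O : ValuationSubring (AlgebraicClosure k))
    (F : AlgebraicClosure k ≃ₐ[k] AlgebraicClosure k) : Prop where
  above : ∀ x : k, algebraMap k (AlgebraicClosure k) x ∈ O ↔ v.valuation k x ≤ 1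
  stab : ∀ z, F z ∈ O ↔ z ∈ O
  frob : ∀ z ∈ O, O.valuation (F z - z ^ Ideal.absNorm v.asIdeal) < 1

/-- Some curve over `k` which maps onto the curve `yⁿ = c h` has a Galois section: there are an
extension `K` of `K₀` and `y ∈ K` with `yⁿ = c h` such that `K/k` has a Galois section (`K` may be
any field; the curve itself is `K = K₀(y)`). -/
def HasSection {k K₀ : Type} [Field k] [Field K₀] [Algebra k K₀] (n : ℕ) (h : K₀) (c : k) : Prop :=
  ∃ (K : Type) (_ : Field K) (_ : Algebra k K) (_ : Algebra K₀ K) (_ : IsScalarTower k K₀ K)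
    (y : K), y ^ n = algebraMap k K c * algebraMap K₀ K h ∧ Nonempty (GaloisSection k K)

/-- The classes of twists with `cond ≤ X` for which the twist, or some curve over `k` which maps onto
it, has a section. -/
def twistsWithSection (k : Type) {K₀ : Type} [Field k] [NumberField k] [Field K₀] [Algebra k K₀]
    (n : ℕ) (h : K₀) (X : ℕ) : Set (Cls k n) :=
  {C | ∃ c : kˣ, (c : Cls k n) = C ∧ cond n (c : k) ≤ X ∧ HasSection n h (c : k)}

theorem goodCurve {k K₀ : Type} [Field k] [Field K₀] [Algebra k K₀] {n : ℕ} {h : K₀}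
    (H : IsCyclicCover k n h) : Pool.Agent.LN.GoodCurve k n h :=
  ⟨H.ff, H.irr, H.nonrat⟩

theorem result {k K₀ : Type} [Field k] [NumberField k] [Field K₀] [Algebra k K₀] (n : ℕ)
    (hn : 2 ≤ n) (h : K₀) (H : IsCyclicCover k n h) :
    (∀ X : ℕ, (twists k n X).Finite) ∧
    -- the local theorem
    (∃ Bad : Set (HeightOneSpectrum (𝓞 k)), Bad.Finite ∧ ∀ v ∉ Bad, ∀ c : k, c ≠ 0 →
      IsRam n v c → HasSection n h c →
      ∃ (O : ValuationSubring (AlgebraicClosure k))
        (F : AlgebraicClosure k ≃ₐ[k] AlgebraicClosure k), IsFrobenius v O F ∧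
        ∃ P : ValuationSubring K₀, IsPoint k P ∧ Fixes F P ∧
          ∀ d : ℕ, d ∣ n → IsRam d v c → ∀ z : K₀, P.valuation h ≠ P.valuation z ^ d) ∧
    -- 100 percent of the twists have no section
    ((∃ σ : AlgebraicClosure k ≃ₐ[k] AlgebraicClosure k,
        ∀ P : ValuationSubring K₀, IsTotallyRamified k n h P → ¬ Fixes σ P) →
      ∃ η C : ℝ, 0 < η ∧ 0 < C ∧ ∀ X : ℕ, 3 ≤ X →
        (Nat.card (twistsWithSection k n h X) : ℝ) ≤
          C * Nat.card (twists k n X) / Real.log X ^ η) ∧
    -- the converse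
    ((∃ P : ValuationSubring K₀, IsTotallyRamified k n h P ∧ IsRational k P) →
      ∀ c : k, c ≠ 0 →
      ∃ (K : Type) (_ : Field K) (_ : Algebra k K) (_ : Algebra K₀ K) (_ : IsScalarTower k K₀ K)
        (y : K), y ^ n = algebraMap k K c * algebraMap K₀ K h ∧
        IntermediateField.adjoin K₀ {y} = ⊤ ∧ Nonempty (GaloisSection k K)) := by
  have htw : ∀ X : ℕ, twists k n X = Pool.Agent.LN.clsP (k := k) n (fun _ => True) X := by
    intro X
    ext C
    constructor
    · rintro ⟨c, h1, h2⟩
      exact ⟨c, h1, h2, trivial⟩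
    · rintro ⟨c, h1, h2, -⟩
      exact ⟨c, h1, h2⟩
  refine ⟨fun X => ?_, ?_, fun hcase => ?_, fun hP c hc => ?_⟩
  · rw [htw]
    exact Pool.Agent.LN.twists_finite n hn X
  · obtain ⟨Bad, hBad, hloc⟩ := Pool.Agent.LN2.loc_all k K₀ n h hn (goodCurve H)
    refine ⟨Bad, hBad, fun v hv c hc hram hsec => ?_⟩
    obtain ⟨O, F, p, f, hD, P, φ, h1, h2, h3, h4⟩ := hloc v hv c hc hram hsec
    refine ⟨O, F, ⟨hD.above, hD.frob.stable, fun z hz => ?_⟩, P, h1, ⟨φ, h3, h4⟩,
      fun d hd hr => h2 d ⟨hd, hr⟩⟩
    have h5 : Ideal.absNorm v.asIdeal = p ^ f := hD.norm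
    rw [h5]
    exact hD.frob.frob z hz
  · obtain ⟨σ, hσ⟩ := hcase
    have h3 := (Pool.Agent.LN2.fin_all k K₀ n h hn (goodCurve H) ⟨σ, by
      rintro ⟨P, φ, h1, h2, h3, h4⟩
      exact hσ P ⟨h1, h2⟩ ⟨φ, h3, h4⟩⟩).2
    obtain ⟨η, C, hη, hC, h4⟩ := h3
    refine ⟨η, C, hη, hC, fun X hX => ?_⟩
    rw [htw]
    exact h4 X hX
  · obtain ⟨P, h1, h2⟩ := hP
    exact Pool.Agent.LN.conv n hn h P h1.point
      (fun l hl hln => h1.ram l hln hl.one_lt) h2 c hc

end Pool.Agent.Results.MP_e66f84_ag.CyclicTwists
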