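import Pool.Agent.Helper45.HP.All

/-!
# The section conjecture for almost all quadratic twists of a genus two curve over `ℚ`

Let `f ∈ ℤ[x]` be separable of degree `6` without rational root, so that `y² = f(x)` is a curve of
genus `2` without rational Weierstrass point (every such curve over `ℚ` has an equation of this
form).  For all integers `c` outside a set of density zero the twist `y² = c f(x)`, and every curve
over `ℚ` which maps onto it, has no Galois section; so it satisfies the section conjecture.

This includes the polynomials `f` which have a root in every completion of `ℚ`, for example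
`(x² - 13)(x² - 17)(x² - 221)`: all twists `y² = c f(x)` are then everywhere locally soluble.
-/

set_option autoImplicit false

namespace Pool.Agent.Results.MP_e66f84_ag.GenusTwoTwists

open Polynomial Filter Topology Pool.Agent.Helper91.Sect

/-- Some curve over `ℚ` which maps onto the curve `y² = c f(x)` has a Galois section: there are an
extension `K` of `ℚ` and `x, y ∈ K` with `x` transcendental and `y² = c f(x)` such that `K/ℚ` has a
Galois section (`K` may be any field; the curve itself is `K = ℚ(x, y)`). -/
def HasSection (f : ℤ[X]) (c : ℤ) : Prop :=
  ∃ (K : Type) (_ : Field K) (_ : Algebra ℚ K) (x y : K), Transcendental ℚ x ∧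
    y ^ 2 = (c : K) * aeval x f ∧ Nonempty (GaloisSection ℚ K)

theorem result (f : ℤ[X]) (hdeg : f.natDegree = 6)
    (hsep : (f.map (Int.castRingHom ℚ)).Separable) (hroot : ∀ a : ℚ, aeval a f ≠ 0) :
    Tendsto (fun N : ℕ => (Nat.card {c : ℤ // |c| ≤ N ∧ HasSection f c} : ℝ) / N) atTop (𝓝 0) :=
  Pool.Agent.HP.stmtFinal f hdeg hsep hroot

end Pool.Agent.Results.MP_e66f84_ag.GenusTwoTwists
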