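import Pool.Agent.Helper99.HG.AllR
import Pool.Agent.Helper45.HG.RatioR

/-!
# The section conjecture for almost all quadratic twists of a hyperelliptic curve

Let `k` be a number field and `f ∈ k[x]` separable of even degree at least `4` without root in `k`,
so that `y² = f(x)` is a hyperelliptic curve (of genus one if the degree is four) without rational
Weierstrass point.  For 100 percent of the classes `c ∈ k*/k*²`, ordered by the norm of the product
of the primes `v` of `k` with `v(c)` odd, the twist `y² = c f(x)`, and every curve over `k` which
maps onto it, has no Galois section; so it satisfies the section conjecture (if its genus is at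
least two).  The proportion of the exceptions with this norm at most `X` is at most
`C / (log X) ^ η` with constants `η, C > 0` depending on `k` and `f`.

(If the degree is odd or `f` has a root in `k` every twist has a rational point, and hence a
section.)
-/

set_option autoImplicit false

namespace Pool.Agent.Results.MP_e66f84_ag.HyperellipticTwists

open Polynomial NumberField IsDedekindDomain Pool.Agent.Helper91.Sect

/-- `v(c)` is odd: the value of `c` is not the square of the value of an element. -/
def IsOdd {k : Type} [Field k] [NumberField k] (v : HeightOneSpectrum (𝓞 k)) (c : k) : Prop :=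
  ∀ d : k, v.valuation k c ≠ v.valuation k d ^ 2

open scoped Classical in
/-- The norm of the product of the primes `v` of `k` with `v(c)` odd. -/
noncomputable def cond {k : Type} [Field k] [NumberField k] (c : k) : ℕ :=
  ∏ᶠ v : HeightOneSpectrum (𝓞 k), if IsOdd v c then Ideal.absNorm v.asIdeal else 1

/-- Some curve over `k` which maps onto the curve `y² = c f(x)` has a Galois section: there are an
extension `K` of `k` and `x, y ∈ K` with `x` transcendental and `y² = c f(x)` such that `K/k` has a
Galois section (`K` may be any field; the curve itself is `K = k(x, y)`). -/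
def HasSection {k : Type} [Field k] (f : k[X]) (c : k) : Prop :=
  ∃ (K : Type) (_ : Field K) (_ : Algebra k K) (x y : K), Transcendental k x ∧
    y ^ 2 = algebraMap k K c * aeval x f ∧ Nonempty (GaloisSection k K)

/-- The group `k*/k*²`. -/
abbrev Cls (k : Type) [Field k] : Type := kˣ ⧸ (powMonoidHom 2 : kˣ →* kˣ).range

/-- The quadratic twists of `y² = f(x)` by classes with `cond ≤ X`. -/
def twists (k : Type) [Field k] [NumberField k] (X : ℕ) : Set (Cls k) :=
  {C | ∃ c : kˣ, (c : Cls k) = C ∧ cond (c : k) ≤ X}

/-- Those for which the twist, or some curve over `k` which maps onto it, has a section. -/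
def twistsWithSection {k : Type} [Field k] [NumberField k] (f : k[X]) (X : ℕ) : Set (Cls k) :=
  {C | ∃ c : kˣ, (c : Cls k) = C ∧ cond (c : k) ≤ X ∧ HasSection f (c : k)}

theorem result {k : Type} [Field k] [NumberField k] (f : k[X]) (hsep : f.Separable)
    (heven : Even f.natDegree) (hdeg : 4 ≤ f.natDegree) (hroot : ∀ a : k, eval a f ≠ 0) :
    (∀ X : ℕ, (twists k X).Finite) ∧
      ∃ η C : ℝ, 0 < η ∧ 0 < C ∧ ∀ X : ℕ, 3 ≤ X →
        (Nat.card (twistsWithSection f X) : ℝ) ≤ C * Nat.card (twists k X) / Real.log X ^ η :=
  Pool.Agent.HG.ratioR_of_finalR Pool.Agent.HG.sel Pool.Agent.HG.finalR k f hsep heven hdeg hroot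

end Pool.Agent.Results.MP_e66f84_ag.HyperellipticTwists
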