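import Pool.Agent.Helper45.L.All
import Pool.Agent.Helper45.L.Conv

/-!
# The section conjecture for almost all quadratic twists of a curve with an involution

Let `k` be a number field, `X → Y` a double cover of curves over `k`, given by the function field
`K₀` of `Y` and `h ∈ K₀`: `X` is the curve `y² = h`, geometrically irreducible and of genus at least
one.  Its twists are the curves `y² = c h`, `c ∈ k*/k*²`, ordered by the norm of the product of the
primes `v` of `k` with `v(c)` odd.

* Local theorem: for all primes `v` of `k` outside a finite set, if `v(c)` is odd and the twist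
  `y² = c h`, or some curve over `k` which maps onto it, has a Galois section, then a Frobenius
  element at `v` fixes a point of `Y` over which `X` is branched.
* If `Y` is the projective line (`X` is a hyperelliptic curve) and no branch point is rational, or if
  some element of the Galois group of `k` fixes no branch point, then for 100 percent of the `c` the
  twist `y² = c h`, and every curve over `k` which maps onto it, has no Galois section.  The
  proportion of the exceptions with norm at most `X` is at most `C / (log X) ^ η`.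
* If some branch point is rational then all twists have a section.
-/

set_option autoImplicit false

namespace Pool.Agent.Results.MP_e66f84_ag.InvolutionTwists

open NumberField IsDedekindDomain VC Pool.Agent.Helper91.Sect

/-- `v(c)` is odd: the value of `c` is not the square of the value of an element. -/
def IsOdd {k : Type} [Field k] [NumberField k] (v : HeightOneSpectrum (𝓞 k)) (c : k) : Prop :=
  ∀ d : k, v.valuation k c ≠ v.valuation k d ^ 2

open scoped Classical in
/-- The norm of the product of the primes `v` of `k` with `v(c)` odd. -/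
noncomputable def cond {k : Type} [Field k] [NumberField k] (c : k) : ℕ :=
  ∏ᶠ v : HeightOneSpectrum (𝓞 k), if IsOdd v c then Ideal.absNorm v.asIdeal else 1

/-- The group `k*/k*²`. -/
abbrev Cls (k : Type) [Field k] : Type := kˣ ⧸ (powMonoidHom 2 : kˣ →* kˣ).range

/-- The classes `c ∈ k*/k*²` with `cond c ≤ X`. -/
def twists (k : Type) [Field k] [NumberField k] (X : ℕ) : Set (Cls k) :=
  {C | ∃ c : kˣ, (c : Cls k) = C ∧ cond (c : k) ≤ X}

/-- The elements of `K₀` and the elements algebraic over `k`, in the algebraic closure of `K₀`: they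
generate the function field of `Y` over the algebraic closure of `k`. -/
def base (k K₀ : Type) [Field k] [Field K₀] [Algebra k K₀] : Set (AlgebraicClosure K₀) :=
  {z | IsAlgebraic k z} ∪ Set.range (algebraMap K₀ (AlgebraicClosure K₀))

/-- `K₀/k` is a function field of one variable, and the double cover `y² = h` is irreducible over the
algebraic closure of `k` and not rational over it. -/
structure IsDoubleCover (k : Type) {K₀ : Type} [Field k] [Field K₀] [Algebra k K₀] (h : K₀) :
    Prop where
  ff : IsFunctionField k K₀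
  irr : ∀ r : AlgebraicClosure K₀, r ^ 2 = algebraMap K₀ (AlgebraicClosure K₀) h →
    r ∉ Subfield.closure (base k K₀)
  nonrat : ∀ r : AlgebraicClosure K₀, r ^ 2 = algebraMap K₀ (AlgebraicClosure K₀) h →
    ∀ y : AlgebraicClosure K₀,
      Subfield.closure (base k K₀ ∪ {r}) ≠ Subfield.closure ({z | IsAlgebraic k z} ∪ {y})

/-- `P` is a branch point of `y² = h`: a valuation ring of `K₀` containing `k` at which `h` has odd
value. -/
structure IsBranch (k : Type) {K₀ : Type} [Field k] [Field K₀] [Algebra k K₀] (h : K₀)
    (P : ValuationSubring K₀) : Prop where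
  const : ∀ a : k, algebraMap k K₀ a ∈ P
  odd : ∀ z : K₀, P.valuation h ≠ P.valuation z ^ 2

/-- The residue field of `P` is `k`. -/
def IsRational (k : Type) {K₀ : Type} [Field k] [Field K₀] [Algebra k K₀]
    (P : ValuationSubring K₀) : Prop :=
  ∀ x ∈ P, ∃ a : k, P.valuation (x - algebraMap k K₀ a) < 1

/-- `σ` fixes a point over `P`: it is trivial on the image of the residue field of `P` under an
embedding over `k`. -/
def Fixes {k K₀ : Type} [Field k] [Field K₀] [Algebra k K₀]
    (σ : AlgebraicClosure k ≃ₐ[k] AlgebraicClosure k) (P : ValuationSubring K₀) : Prop :=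
  ∃ φ : P →+* AlgebraicClosure k,
    (∀ (a : k) (x : P), (x : K₀) = algebraMap k K₀ a → φ x = algebraMap k (AlgebraicClosure k) a) ∧
    ∀ x : P, σ (φ x) = φ x

/-- `F` is a Frobenius element at the prime `v` of `k`, at the valuation ring `O` of the algebraic
closure of `k` over `v`. -/
structure IsFrobenius {k : Type} [Field k] [NumberField k] (v : HeightOneSpectrum (𝓞 k))
    (O : ValuationSubring (AlgebraicClosure k)) (F : AlgebraicClosure k ≃ₐ[k] AlgebraicClosure k) :
    Prop where
  above : ∀ x : k, algebraMap k (AlgebraicClosure k) x ∈ O ↔ v.valuation k x ≤ 1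
  stable : ∀ z, F z ∈ O ↔ z ∈ O
  frob : ∀ z ∈ O, O.valuation (F z - z ^ Ideal.absNorm v.asIdeal) < 1

/-- Some curve over `k` which maps onto the curve `y² = c h` has a Galois section: there are an
extension `K` of `K₀` and `y ∈ K` with `y² = c h` such that `K/k` has a Galois section (`K` may be
any field; the curve itself is `K = K₀(y)`). -/
def HasSection {k K₀ : Type} [Field k] [Field K₀] [Algebra k K₀] (h : K₀) (c : k) : Prop :=
  ∃ (K : Type) (_ : Field K) (_ : Algebra k K) (_ : Algebra K₀ K) (_ : IsScalarTower k K₀ K)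
    (y : K), y ^ 2 = algebraMap k K c * algebraMap K₀ K h ∧ Nonempty (GaloisSection k K)

/-- The classes of twists with `cond ≤ X` for which the twist, or some curve over `k` which maps onto
it, has a section. -/
def twistsWithSection (k : Type) {K₀ : Type} [Field k] [NumberField k] [Field K₀] [Algebra k K₀]
    (h : K₀) (X : ℕ) : Set (Cls k) :=
  {C | ∃ c : kˣ, (c : Cls k) = C ∧ cond (c : k) ≤ X ∧ HasSection h (c : k)}

theorem goodCurve {k K₀ : Type} [Field k] [Field K₀] [Algebra k K₀] {h : K₀}
    (H : IsDoubleCover k h) : Pool.Agent.L.GoodCurve k h :=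
  ⟨H.ff, H.irr, H.nonrat⟩

theorem result {k K₀ : Type} [Field k] [NumberField k] [Field K₀] [Algebra k K₀] (h : K₀)
    (H : IsDoubleCover k h) :
    -- the local theorem
    (∃ Bad : Set (HeightOneSpectrum (𝓞 k)), Bad.Finite ∧ ∀ v ∉ Bad, ∀ c : k, c ≠ 0 → IsOdd v c →
      HasSection h c → ∃ (O : ValuationSubring (AlgebraicClosure k))
        (F : AlgebraicClosure k ≃ₐ[k] AlgebraicClosure k) (P : ValuationSubring K₀),
        IsFrobenius v O F ∧ IsBranch k h P ∧ Fixes F P) ∧
    (∀ X : ℕ, (twists k X).Finite) ∧
    -- almost all twists have no section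
    (((∃ x : K₀, IntermediateField.adjoin k {x} = ⊤) ∧
        ∀ P : ValuationSubring K₀, IsBranch k h P → ¬ IsRational k P) ∨
      (∃ σ : AlgebraicClosure k ≃ₐ[k] AlgebraicClosure k,
        ∀ P : ValuationSubring K₀, IsBranch k h P → ¬ Fixes σ P) →
      ∃ η C : ℝ, 0 < η ∧ 0 < C ∧ ∀ X : ℕ, 3 ≤ X →
        (Nat.card (twistsWithSection k h X) : ℝ) ≤ C * Nat.card (twists k X) / Real.log X ^ η) ∧
    -- the converse
    ((∃ P : ValuationSubring K₀, IsBranch k h P ∧ IsRational k P) → ∀ c : k, c ≠ 0 →
      ∃ (K : Type) (_ : Field K) (_ : Algebra k K) (_ : Algebra K₀ K) (_ : IsScalarTower k K₀ K)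
        (y : K), y ^ 2 = algebraMap k K c * algebraMap K₀ K h ∧
        IntermediateField.adjoin K₀ {y} = ⊤ ∧ Nonempty (GaloisSection k K)) := by
  refine ⟨?_, Pool.Agent.HG.clsLE_finite Pool.Agent.HG.sel, fun hcase => ?_, fun hP c hc => ?_⟩
  · obtain ⟨Bad, hBad, hloc⟩ := Pool.Agent.L.loc k K₀ h (goodCurve H)
    refine ⟨Bad, hBad, fun v hv c hc hodd hsec => ?_⟩
    obtain ⟨O, F, p, f, hD, P, φ, h1, h2, h3, h4⟩ := hloc v hv c hc hodd hsec
    refine ⟨O, F, P, ⟨hD.above, hD.frob.stable, fun z hz => ?_⟩, ⟨h1, h2⟩, φ, h3, h4⟩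
    have hn : Ideal.absNorm v.asIdeal = p ^ f := hD.norm
    rw [hn]
    exact hD.frob.frob z hz
  · have hG := goodCurve H
    refine (Pool.Agent.HG.ratioRP Pool.Agent.HG.sel k (fun c => HasSection h c)
      (Pool.Agent.L.fin k K₀ h hG ?_)).2
    rcases hcase with ⟨h1, h2⟩ | ⟨σ, hσ⟩
    · refine Or.inl ⟨h1, fun P hP hodd => ?_⟩
      have h3 := h2 P ⟨hP, hodd⟩
      unfold IsRational at h3
      push Not at h3
      obtain ⟨x, hx, h4⟩ := h3
      refine ⟨x, hx, fun a ha => ?_⟩
      exact absurd (P.mem_nonunits_iff.1 ha) (not_lt.2 (h4 a))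
    · refine Or.inr ⟨σ, ?_⟩
      rintro ⟨P, φ, h1, h2, h3, h4⟩
      exact hσ P ⟨h1, h2⟩ ⟨φ, h3, h4⟩
  · obtain ⟨P, h1, h2⟩ := hP
    exact Pool.Agent.L.conv h P h1.const h1.odd h2 c hc

end Pool.Agent.Results.MP_e66f84_ag.InvolutionTwists
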